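import Pool.Agent.helper60.DB.SpecF

set_option autoImplicit false

namespace Pool.Agent.helper60.DB

open Polynomial Finset Pool.Agent.helper60.DK

theorem BQ_core (h1 : IZ_stmt) (h2 : YE_stmt) (h3 : TT_stmt) (h4 : BG_stmt)
    (R k : Type) [CommRing R] [IsDomain R] [CharZero R] [Field k] (p : ℕ) [Fact p.Prime]
    [CharP k p] (q : R →+* k) (hq : Loc p q) (hp5 : 5 ≤ p) (s t x : R) (a b : ℤ)
    (hs : s ^ 2 = 2) (ht : t ^ 2 = -3) (hqs : q s ^ p = -q s) (hx : 2 * x = 1)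
    (hp : (p : ℤ) = 2 * a ^ 2 + 3 * b ^ 2) (hγ' : q (s * a + t * b) = 0) :
    ∃ z : R, aeval x (DA.St p) = (legendreSym p 6 : ℤ) * (8 * (a : R) ^ 2 - 2 * p) + (p : R) ^ 2 * z := by
  have hprime : p.Prime := Fact.out
  have hodd : Odd p := hprime.odd_of_ne_two (by omega)
  obtain ⟨m, hm⟩ := hodd
  have hhh : hh p = m := by unfold hh; omega
  -- units
  have hunit : ∀ n : ℤ, ¬ (p : ℤ) ∣ n → IsUnit (n : R) := by
    intro n hn
    apply hq.unit
    intro h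
    exact hn (((h1 R k p q hq).1 n).1 h)
  have h2u : IsUnit (2 : R) := by
    have := hunit 2 (by
      intro h
      have := Int.le_of_dvd (by norm_num) h
      omega)
    simpa using this
  have h6nd : ¬ (p : ℤ) ∣ 6 := by
    intro h
    have h7 : p ∣ 6 := by exact_mod_cast h
    have h8 : p ∣ 2 * 3 := by simpa using h7
    rcases (Nat.Prime.dvd_mul hprime).1 h8 with h9 | h9
    · have := Nat.le_of_dvd (by norm_num) h9; omega
    · have := Nat.le_of_dvd (by norm_num) h9; omega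
  have h6u : IsUnit (6 : R) := by
    have := hunit 6 h6nd
    simpa using this
  obtain ⟨y1, w1, hy1, hw1, -⟩ := h2 R h2u (12 * (1 + s)) 6
  obtain ⟨y2, w2, hy2, hw2, -⟩ := h2 R h2u (12 * (1 + -s)) 6
  obtain ⟨z1, hz1⟩ := h4 R k p m q hq hp5 hm s t a b y1 w1 hs ht hqs hy1 hw1 hp hγ'
  obtain ⟨z2, hz2⟩ := h4 R k p m q hq hp5 hm (-s) (-t) a b y2 w2 (by rw [neg_sq]; exact hs)
    (by rw [neg_sq]; exact ht)
    (by
      rw [map_neg, hm, neg_pow, pow_succ, pow_mul, neg_one_sq, one_pow, ← hm, hqs]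
      ring) hy2 hw2 hp
    (by
      have : (-s * a + -t * b : R) = -(s * a + t * b) := by ring
      rw [this, map_neg, hγ', neg_zero])
  obtain ⟨z3, hz3⟩ := h3 p hp5 R s x (12 * (1 + s)) (12 * (1 + -s)) 6 y1 w1 y2 w2
    (by rw [hs]; linear_combination hx)
    (by
      rw [hs]
      have : (4 - 2 : R) = 2 := by norm_num
      rw [this]
      exact h2u)
    (by norm_num)
    (by linear_combination (144 * s ^ 4 - 288 * s ^ 3 - 648 * s ^ 2 + 1440 * s + 1008) * hs)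
    (by linear_combination (144 * s ^ 4 + 288 * s ^ 3 - 648 * s ^ 2 - 1440 * s + 1008) * hs)
    hy1 hw1 hy2 hw2
  rw [hhh, hz1, hz2] at hz3
  obtain ⟨c, hc⟩ := (hq.ker _).1 hγ'
  have hpR : (p : R) = 2 * (a : R) ^ 2 + 3 * (b : R) ^ 2 := by
    have : ((p : ℤ) : R) = ((2 * a ^ 2 + 3 * b ^ 2 : ℤ) : R) := by rw [hp]
    push_cast at this
    exact this
  have hu : IsUnit (4 * 6 ^ m : R) := by
    have h4 : (4 : R) = 2 ^ 2 := by norm_num
    rw [h4]
    exact (h2u.pow 2).mul (h6u.pow m)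
  obtain ⟨u, hu'⟩ := hu
  have hinv : ((u⁻¹ : Rˣ) : R) * (4 * 6 ^ m) = 1 := by rw [← hu', Units.inv_mul]
  obtain ⟨ε, hε⟩ : ∃ ε : R, ε = ((legendreSym p 6 : ℤ) : R) := ⟨_, rfl⟩
  rw [← hε] at hz3 ⊢
  have hγ : (s * a - t * b) ^ 2 = 8 * (a : R) ^ 2 - 2 * p - p ^ 2 * c ^ 2 := by
    have h5 : (s * a - t * b) ^ 2 + (s * a + t * b) ^ 2 = 4 * (a : R) ^ 2 - 6 * (b : R) ^ 2 := by
      linear_combination (2 * (a : R) ^ 2) * hs + (2 * (b : R) ^ 2) * ht
    rw [hc] at h5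
    linear_combination h5 + (2 : R) * hpR
  have hkey : (4 * 6 ^ m) * aeval x (DA.St p) = (4 * 6 ^ m) * (ε * (s * a - t * b) ^ 2) +
      (p : R) ^ 2 * ((2 + s) * z1 + (2 - s) * z2 + z3) := by
    linear_combination hz3
  refine ⟨((u⁻¹ : Rˣ) : R) * ((2 + s) * z1 + (2 - s) * z2 + z3) - ε * c ^ 2, ?_⟩
  have h6 : aeval x (DA.St p) = ε * (s * a - t * b) ^ 2 +
      ((u⁻¹ : Rˣ) : R) * ((p : R) ^ 2 * ((2 + s) * z1 + (2 - s) * z2 + z3)) := by
    calc aeval x (DA.St p) = (((u⁻¹ : Rˣ) : R) * (4 * 6 ^ m)) * aeval x (DA.St p) := by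
          rw [hinv, one_mul]
      _ = ((u⁻¹ : Rˣ) : R) * ((4 * 6 ^ m) * aeval x (DA.St p)) := by ring
      _ = (((u⁻¹ : Rˣ) : R) * (4 * 6 ^ m)) * (ε * (s * a - t * b) ^ 2) +
          ((u⁻¹ : Rˣ) : R) * ((p : R) ^ 2 * ((2 + s) * z1 + (2 - s) * z2 + z3)) := by
          rw [hkey]; ring
      _ = _ := by rw [hinv, one_mul]
  rw [h6, hγ]
  ring

theorem BQ (h1 : IZ_stmt) (h2 : YE_stmt) (h3 : TT_stmt) (h4 : BG_stmt) : BQ_stmt := by
  intro R k _ _ _ _ p _ _ q hq hp5 s t x a b hs ht hqs hx hp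
  have hpR : (p : R) = 2 * (a : R) ^ 2 + 3 * (b : R) ^ 2 := by
    have : ((p : ℤ) : R) = ((2 * a ^ 2 + 3 * b ^ 2 : ℤ) : R) := by rw [hp]
    push_cast at this
    exact this
  have hqp : q (p : R) = 0 := (hq.ker _).2 dvd_rfl
  have hprod : (s * a - t * b) * (s * a + t * b) = (p : R) := by
    rw [hpR]
    linear_combination ((a : R) ^ 2) * hs - ((b : R) ^ 2) * ht
  have h5 : q (s * a - t * b) * q (s * a + t * b) = 0 := by
    rw [← map_mul, hprod, hqp]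
  rcases mul_eq_zero.1 h5 with h6 | h6
  · refine BQ_core h1 h2 h3 h4 R k p q hq hp5 s t x a (-b) hs ht hqs hx (by rw [hp]; ring) ?_
    have : (s * a + t * ((-b : ℤ) : R)) = s * a - t * b := by push_cast; ring
    rw [this]
    exact h6
  · exact BQ_core h1 h2 h3 h4 R k p q hq hp5 s t x a b hs ht hqs hx hp h6

end Pool.Agent.helper60.DB
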