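import Pool.Agent.helper60.DB.SpecC

set_option autoImplicit false

namespace Pool.Agent.helper60.DB

open Polynomial Finset

theorem FA_gcd {K : Type*} [Field K] (N D : K[X]) (hD : D ≠ 0) :
    ∃ d N₁ D₁ : K[X], d ≠ 0 ∧ D₁ ≠ 0 ∧ N = d * N₁ ∧ D = d * D₁ ∧ IsCoprime N₁ D₁ := by
  classical
  obtain ⟨d, hd⟩ : ∃ d : K[X], d = EuclideanDomain.gcd N D := ⟨_, rfl⟩
  obtain ⟨N₁, hN₁⟩ := EuclideanDomain.gcd_dvd_left N D
  obtain ⟨D₁, hD₁⟩ := EuclideanDomain.gcd_dvd_right N D
  have hbez := EuclideanDomain.gcd_eq_gcd_ab N D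
  rw [← hd] at hN₁ hD₁ hbez
  have hd0 : d ≠ 0 := by
    intro h
    rw [h, zero_mul] at hD₁
    exact hD hD₁
  have hD₁0 : D₁ ≠ 0 := by
    intro h
    rw [h, mul_zero] at hD₁
    exact hD hD₁
  refine ⟨d, N₁, D₁, hd0, hD₁0, hN₁, hD₁, EuclideanDomain.gcdA N D, EuclideanDomain.gcdB N D, ?_⟩
  apply mul_left_cancel₀ hd0
  calc d * (EuclideanDomain.gcdA N D * N₁ + EuclideanDomain.gcdB N D * D₁)
      = (d * N₁) * EuclideanDomain.gcdA N D + (d * D₁) * EuclideanDomain.gcdB N D := by ring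
    _ = N * EuclideanDomain.gcdA N D + D * EuclideanDomain.gcdB N D := by rw [← hN₁, ← hD₁]
    _ = d * 1 := by rw [mul_one, ← hbez]

theorem FA (h1 : PV_stmt) (h2 : PR_stmt) (h3 : F0_stmt) : FA_stmt := by
  intro R k _ _ _ _ p _ q hq g m N D hD hNm hDm hprod
  have hinj : Function.Injective (algebraMap R (FractionRing R)) := IsFractionRing.injective R _
  obtain ⟨d, N₁, D₁, hd, hD₁, hNd, hDd, hcop⟩ := FA_gcd N D hD
  have hDm1 : D₁.natDegree ≤ m := by
    have : D.natDegree = d.natDegree + D₁.natDegree := by rw [hDd, natDegree_mul hd hD₁]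
    omega
  have hNm1 : N₁.natDegree ≤ m := by
    by_cases hN0 : N₁ = 0
    · rw [hN0]; simp
    · have : N.natDegree = d.natDegree + N₁.natDegree := by rw [hNd, natDegree_mul hd hN0]
      omega
  have hprod1 : (D₁ : PowerSeries (FractionRing R)) * PowerSeries.map (algebraMap R (FractionRing R)) g
      = (N₁ : PowerSeries (FractionRing R)) := by
    have hd' : (d : PowerSeries (FractionRing R)) ≠ 0 := by
      intro h
      apply hd
      exact_mod_cast h
    apply mul_left_cancel₀ hd'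
    rw [← mul_assoc, ← Polynomial.coe_mul, ← Polynomial.coe_mul, ← hDd, ← hNd]
    exact hprod
  obtain ⟨c, D', hc, hD', hD'q⟩ := h2 R k p q hq D₁ hD₁
  have hD'deg : D'.natDegree ≤ m := by
    rw [← natDegree_map_eq_of_injective hinj D', hD', natDegree_C_mul hc]
    exact hDm1
  -- the polynomial N'
  obtain ⟨N', hN'⟩ : ∃ N' : R[X], N' = PowerSeries.trunc (m + 1) ((D' : PowerSeries R) * g) := ⟨_, rfl⟩
  have hmapprod : PowerSeries.map (algebraMap R (FractionRing R)) ((D' : PowerSeries R) * g) =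
      ((C c * N₁ : (FractionRing R)[X]) : PowerSeries (FractionRing R)) := by
    rw [map_mul, Polynomial.coe_mul, ← hprod1, ← mul_assoc, ← Polynomial.coe_mul, ← hD']
    congr 1
    ext n
    simp
  have hcoeff : ∀ i, m < i → PowerSeries.coeff i ((D' : PowerSeries R) * g) = 0 := by
    intro i hi
    apply hinj
    rw [map_zero, ← PowerSeries.coeff_map, hmapprod, Polynomial.coeff_coe, coeff_C_mul,
      coeff_eq_zero_of_natDegree_lt (lt_of_le_of_lt hNm1 hi), mul_zero]
  have hN'eq : (N' : PowerSeries R) = (D' : PowerSeries R) * g := by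
    ext i
    rw [hN', Polynomial.coeff_coe, PowerSeries.coeff_trunc]
    split_ifs with hi
    · rfl
    · rw [hcoeff i (by omega)]
  have hN'map : N'.map (algebraMap R (FractionRing R)) = C c * N₁ := by
    ext i
    rw [coeff_map, ← Polynomial.coeff_coe, hN'eq, ← PowerSeries.coeff_map, hmapprod,
      Polynomial.coeff_coe]
  have hN'deg : N'.natDegree ≤ m := by
    rw [natDegree_le_iff_coeff_eq_zero]
    intro i hi
    rw [← Polynomial.coeff_coe, hN'eq]
    exact hcoeff i hi
  have hcunit : IsUnit (C c : (FractionRing R)[X]) := isUnit_C.2 (isUnit_iff_ne_zero.2 hc)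
  have hcop' : IsCoprime (N'.map (algebraMap R (FractionRing R)))
      (D'.map (algebraMap R (FractionRing R))) := by
    rw [hN'map, hD']
    rw [isCoprime_mul_unit_left_left hcunit, isCoprime_mul_unit_left_right hcunit]
    exact hcop
  -- Bezout, denominators cleared
  obtain ⟨a₀, b₀, hab⟩ := hcop'
  obtain ⟨s, hs, hs'⟩ := IsLocalization.integerNormalization_spec (nonZeroDivisors R) a₀
  obtain ⟨t, ht, ht'⟩ := IsLocalization.integerNormalization_spec (nonZeroDivisors R) b₀
  obtain ⟨a, ha⟩ : ∃ a : R[X], a = IsLocalization.integerNormalization (nonZeroDivisors R) a₀ := ⟨_, rfl⟩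
  obtain ⟨b, hb⟩ : ∃ b : R[X], b = IsLocalization.integerNormalization (nonZeroDivisors R) b₀ := ⟨_, rfl⟩
  rw [← ha] at hs'
  rw [← hb] at ht'
  have hsmul : ∀ (r : R) (f : (FractionRing R)[X]), r • f = C (algebraMap R (FractionRing R) r) * f := by
    intro r f
    rw [← Polynomial.smul_eq_C_mul, algebraMap_smul]
  rw [hsmul] at hs' ht'
  have hs0 : s ≠ 0 := nonZeroDivisors.ne_zero hs
  have ht0 : t ≠ 0 := nonZeroDivisors.ne_zero ht
  have hbez : (C t * a) * N' + (C s * b) * D' = C (s * t) := by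
    apply Polynomial.map_injective _ hinj
    rw [Polynomial.map_add, Polynomial.map_mul, Polynomial.map_mul, Polynomial.map_mul,
      Polynomial.map_mul, hs', ht', Polynomial.map_C, Polynomial.map_C, Polynomial.map_C, map_mul,
      C_mul]
    linear_combination (C ((algebraMap R (FractionRing R)) s) * C ((algebraMap R (FractionRing R)) t)) * hab
  have hst : s * t ≠ 0 := mul_ne_zero hs0 ht0
  obtain ⟨j, c', hj, hc'⟩ := hq.val (s * t) hst
  have hF0 := h3 R k p q hq D' (((C t * a : R[X]) : PowerSeries R) * g + ((C s * b : R[X]) : PowerSeries R)) j c'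
    hD'q hc' (by
      rw [← hj]
      have h5 : ((C (s * t) : R[X]) : PowerSeries R) = PowerSeries.C (s * t) := Polynomial.coe_C _
      rw [← h5, ← hbez, Polynomial.coe_add, Polynomial.coe_mul (C t * a), hN'eq,
        Polynomial.coe_mul (C s * b)]
      ring)
  obtain ⟨v, hv⟩ := hq.unit _ hF0
  -- divide
  refine ⟨C ((v⁻¹ : Rˣ) : R) * N', C ((v⁻¹ : Rˣ) : R) * D', ?_, ?_, ?_, ?_, ?_⟩
  · rw [coeff_C_mul, ← hv, Units.inv_mul]
  · exact (natDegree_C_mul_le _ _).trans hN'deg
  · exact (natDegree_C_mul_le _ _).trans hD'deg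
  · rw [Polynomial.coe_mul, Polynomial.coe_mul, hN'eq, mul_assoc]
  · have hu : IsUnit (C (algebraMap R (FractionRing R) ((v⁻¹ : Rˣ) : R)) : (FractionRing R)[X]) := by
      apply isUnit_C.2
      exact (Units.isUnit (v⁻¹)).map _
    rw [Polynomial.map_mul, Polynomial.map_mul, Polynomial.map_C]
    rw [isCoprime_mul_unit_left_left hu, isCoprime_mul_unit_left_right hu]
    exact ⟨a₀, b₀, hab⟩

end Pool.Agent.helper60.DB
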